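import Pool.Agent.helper62.MS.SpecD

/-!
# Row ms:SML of project MS (MP_07c750_an): the theorem of Shannon and McMillan in `L¹`
-/

set_option autoImplicit false

open MeasureTheory Filter Set
open scoped Topology

namespace Pool.Agent.MS

section
variable {X : Type} [MeasurableSpace X] (μ : Measure X) (T : X → X) {p : ℕ} (P : X → Fin p)

/-- the itinerary -/
def SML_W (N : ℕ) (x : X) : Fin N → Fin p := fun i => P (T^[i] x)

theorem SML_Wm (hT : Measurable T) (hP : Measurable P) (N : ℕ) : Measurable (SML_W T P N) := by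
  rw [measurable_pi_iff]
  intro i
  exact hP.comp (hT.iterate i)

theorem SML_cyl (N : ℕ) (x : X) : LL.cyl μ T P N x = μ.real {y | SML_W T P N y = SML_W T P N x} := by
  unfold LL.cyl SML_W
  congr 1
  ext y
  simp only [Set.mem_ofPred_eq]
  constructor
  · intro h
    funext i
    exact h i
  · intro h i
    exact congrFun h i

theorem SML_int [IsProbabilityMeasure μ] (hT : Measurable T) (hP : Measurable P) (N : ℕ) :
    ∫ x, -Real.log (LL.cyl μ T P N x) ∂μ = EN.Hn μ T P N := by
  have hW := SML_Wm T P hT hP N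
  let φ : (Fin N → Fin p) → ℝ := fun w => -Real.log (μ.real {y | SML_W T P N y = w})
  have e1 : ∫ x, -Real.log (LL.cyl μ T P N x) ∂μ = ∫ w, φ w ∂(μ.map (SML_W T P N)) := by
    rw [integral_map hW.aemeasurable (measurable_of_finite φ).aestronglyMeasurable]
    refine integral_congr_ae (Eventually.of_forall fun x => ?_)
    show -Real.log (LL.cyl μ T P N x) = -Real.log (μ.real {y | SML_W T P N y = SML_W T P N x})
    rw [SML_cyl]
  have : IsProbabilityMeasure (μ.map (SML_W T P N)) := Measure.isProbabilityMeasure_map hW.aemeasurable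
  rw [e1, integral_fintype (Integrable.of_finite)]
  unfold EN.Hn
  refine Finset.sum_congr rfl fun w _ => ?_
  have e2 : (μ.map (SML_W T P N)).real {w} = μ.real {x | ∀ i : Fin N, P (T^[i] x) = w i} := by
    rw [measureReal_def, Measure.map_apply hW (measurableSet_singleton w), ← measureReal_def]
    congr 1
    ext y
    simp only [Set.mem_preimage, Set.mem_singleton_iff, Set.mem_ofPred_eq]
    constructor
    · intro h i
      rw [← h]
      rfl
    · intro h
      funext i
      exact h i
  have e3 : {y | SML_W T P N y = w} = {x | ∀ i : Fin N, P (T^[i] x) = w i} := by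
    ext y
    simp only [Set.mem_ofPred_eq]
    constructor
    · intro h i
      rw [← h]
      rfl
    · intro h
      funext i
      exact h i
  show (μ.map (SML_W T P N)).real {w} • -Real.log (μ.real {y | SML_W T P N y = w}) = _
  rw [e2, e3, smul_eq_mul, Real.negMulLog]
  ring

theorem SML_meas (hT : Measurable T) (hP : Measurable P) (N : ℕ) : Measurable fun x => LL.cyl μ T P N x := by
  have hW := SML_Wm T P hT hP N
  have e : (fun x => LL.cyl μ T P N x) = (fun w => μ.real {y | SML_W T P N y = w}) ∘ SML_W T P N := by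
    funext x
    rw [SML_cyl]
    rfl
  rw [e]
  exact (measurable_of_finite _).comp hW

theorem SML_null (hT : Measurable T) (hP : Measurable P) [IsProbabilityMeasure μ] (N : ℕ) : ∀ᵐ x ∂μ, 0 < LL.cyl μ T P N x := by
  have hW := SML_Wm T P hT hP N
  rw [ae_iff]
  have e : {x | ¬ 0 < LL.cyl μ T P N x} ⊆ ⋃ w : Fin N → Fin p, {x | SML_W T P N x = w ∧ ¬ 0 < LL.cyl μ T P N x} := by
    intro x hx
    rw [Set.mem_iUnion]
    exact ⟨SML_W T P N x, rfl, hx⟩
  refine measure_mono_null e (measure_iUnion_null fun w => ?_)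
  by_cases h : ∃ x, SML_W T P N x = w ∧ ¬ 0 < LL.cyl μ T P N x
  · obtain ⟨x, hx, hx2⟩ := h
    rw [SML_cyl, hx] at hx2
    have h3 : μ.real {y | SML_W T P N y = w} = 0 := le_antisymm (not_lt.1 hx2) measureReal_nonneg
    have h4 : μ {y | SML_W T P N y = w} = 0 := by
      rw [measureReal_eq_zero_iff] at h3
      exact h3
    refine measure_mono_null ?_ h4
    intro y hy
    exact hy.1
  · have : {x | SML_W T P N x = w ∧ ¬ 0 < LL.cyl μ T P N x} = ∅ := by
      rw [Set.eq_empty_iff_forall_notMem]
      intro x hx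
      exact h ⟨x, hx⟩
    rw [this, measure_empty]

theorem SML_le (N : ℕ) [IsProbabilityMeasure μ] (x : X) : 0 ≤ LL.cyl μ T P N x ∧ LL.cyl μ T P N x ≤ 1 := by
  rw [SML_cyl]
  exact ⟨measureReal_nonneg, measureReal_le_one⟩

theorem SML_integrable [IsProbabilityMeasure μ] (hT : Measurable T) (hP : Measurable P) (N : ℕ) :
    Integrable (fun x => -Real.log (LL.cyl μ T P N x)) μ := by
  have hW := SML_Wm T P hT hP N
  let φ : (Fin N → Fin p) → ℝ := fun w => -Real.log (μ.real {y | SML_W T P N y = w})
  have : IsProbabilityMeasure (μ.map (SML_W T P N)) := Measure.isProbabilityMeasure_map hW.aemeasurable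
  have h1 : Integrable φ (μ.map (SML_W T P N)) := Integrable.of_finite
  have h2 := h1.comp_measurable hW
  have e : (fun x => -Real.log (LL.cyl μ T P N x)) = φ ∘ SML_W T P N := by
    funext x
    rw [SML_cyl]
    rfl
  rw [e]
  exact h2

end

theorem SML_proof (hFEK : FEK_stmt) : SML_stmt := by
  intro X _ μ T S p P J L ε _ hsys hP hJ hJL hε hinf hae κ hκ
  obtain ⟨h, h0, hlim, heq⟩ := hFEK X μ T p P inferInstance hsys.mp hP
  rw [← heq, EReal.coe_le_coe_iff] at hinf
  have hTm : Measurable T := hsys.mp.measurable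
  have hSm : Measurable S := hsys.ms.measurable
  obtain ⟨x0⟩ : Nonempty X := by
    by_contra hne
    rw [not_nonempty_iff] at hne
    have := measure_univ (μ := μ)
    rw [Set.univ_eq_empty_iff.2 hne, measure_empty] at this
    exact zero_ne_one this
  have hL : 0 ≤ L := (hJL x0).1.trans (hJL x0).2
  have hJi : Integrable J μ := by
    refine Integrable.of_bound hJ.aestronglyMeasurable L (Eventually.of_forall fun x => ?_)
    rw [Real.norm_eq_abs, abs_of_nonneg (hJL x).1]
    exact (hJL x).2
  -- the functions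
  let N : ℕ → ℕ := fun n => 2 * n + 1
  have hNpos : ∀ n, (0 : ℝ) < ((N n : ℕ) : ℝ) := fun n => by
    show (0 : ℝ) < ((2 * n + 1 : ℕ) : ℝ)
    positivity
  let c : ℕ → X → ℝ := fun n x => LL.cyl μ T P (N n) (S^[n] x)
  have hcm : ∀ n, Measurable (c n) := fun n => (SML_meas μ T P hTm hP (N n)).comp (hSm.iterate n)
  have hSn : ∀ n, MeasurePreserving (S^[n]) μ μ := fun n => hsys.ms.iterate n
  have hc0 : ∀ n, ∀ᵐ x ∂μ, 0 < c n x := fun n => (hSn n).quasiMeasurePreserving.ae (SML_null μ T P hTm hP (N n))
  have hc1 : ∀ n x, 0 ≤ c n x ∧ c n x ≤ 1 := fun n x => SML_le μ T P (N n) _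
  let f : ℕ → X → ℝ := fun n x => (-Real.log (c n x)) / (N n : ℝ)
  have hfi : ∀ n, Integrable (f n) μ := by
    intro n
    have h1 := (SML_integrable μ T P hTm hP (N n))
    have h2 : Integrable (fun x => -Real.log (c n x)) μ := (hSn n).integrable_comp_of_integrable h1
    exact h2.div_const _
  have hf0 : ∀ n x, 0 ≤ f n x := by
    intro n x
    refine div_nonneg ?_ (hNpos n).le
    have := Real.log_nonpos (hc1 n x).1 (hc1 n x).2
    linarith
  have hfint : ∀ n, ∫ x, f n x ∂μ = EN.Hn μ T P (N n) / (N n : ℝ) := by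
    intro n
    show ∫ x, (-Real.log (c n x)) / (N n : ℝ) ∂μ = _
    rw [integral_div, ← SML_int μ T P hTm hP (N n)]
    congr 1
    have h1 : AEStronglyMeasurable (fun x => -Real.log (LL.cyl μ T P (N n) x)) (μ.map (S^[n])) := by
      rw [(hSn n).map_eq]
      exact (SML_integrable μ T P hTm hP (N n)).aestronglyMeasurable
    have h2 := integral_map (hSn n).measurable.aemeasurable h1
    rw [(hSn n).map_eq] at h2
    exact h2.symm
  -- the good sets
  let G : ℕ → Set X := fun n => {x | c n x ≤ Real.exp (-(((2 * n + 1 : ℕ) : ℝ) * (J x - ε)))}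
  have hGm : ∀ n, MeasurableSet (G n) := fun n =>
    measurableSet_le (hcm n) (Real.measurable_exp.comp (((hJ.sub_const ε).const_mul _).neg))
  have hGlim : Tendsto (fun n => μ (G n)ᶜ) atTop (𝓝 (μ (∅ : Set X))) := by
    refine tendsto_measure_of_ae_tendsto_indicator_of_isFiniteMeasure atTop MeasurableSet.empty (fun n => (hGm n).compl) ?_
    filter_upwards [hae] with x hx
    filter_upwards [hx] with n hn
    constructor
    · intro h1
      exact absurd hn h1
    · intro h1
      exact absurd h1 (Set.notMem_empty x)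
  have hGlim' : Tendsto (fun n => L * μ.real (G n)ᶜ) atTop (𝓝 0) := by
    have h1 := (ENNReal.tendsto_toReal (measure_ne_top μ (∅ : Set X))).comp hGlim
    have h2 := h1.const_mul L
    have h3 : Tendsto (fun n => L * (μ (G n)ᶜ).toReal) atTop (𝓝 0) := by simpa using h2
    exact h3
  have hN : Tendsto N atTop atTop := by
    refine tendsto_atTop_mono (fun n => ?_) tendsto_id
    show n ≤ 2 * n + 1
    omega
  have hlimN : Tendsto (fun n => EN.Hn μ T P (N n) / (N n : ℝ)) atTop (𝓝 h) := hlim.comp hN
  have hev1 : ∀ᶠ n in atTop, EN.Hn μ T P (N n) / (N n : ℝ) < h + ε / 4 := hlimN.eventually_lt_const (by linarith)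
  have hev2 : ∀ᶠ n in atTop, L * μ.real (G n)ᶜ < ε / 4 := hGlim'.eventually_lt_const (by linarith)
  filter_upwards [hev1, hev2] with n h1 h2
  let g : X → ℝ := fun x => f n x - J x + ε
  have hgi : Integrable g μ := ((hfi n).sub hJi).add (integrable_const ε)
  have hgint : ∫ x, g x ∂μ = EN.Hn μ T P (N n) / (N n : ℝ) - ∫ x, J x ∂μ + ε := by
    have e1 := integral_add (f := fun x => f n x - J x) (g := fun _ => ε) ((hfi n).sub hJi) (integrable_const ε)
    have e2 := integral_sub (hfi n) hJi
    have e3 : ∫ _ : X, ε ∂μ = ε := by simp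
    rw [e2, hfint, e3] at e1
    exact e1
  have hmi : Integrable (fun x => max (g x) 0) μ := hgi.pos_part
  have hind : Integrable ((G n)ᶜ.indicator (fun _ => L)) μ := (integrable_const L).indicator (hGm n).compl
  have hb : ∫ x, max (g x) 0 ∂μ ≤ ∫ x, g x + (G n)ᶜ.indicator (fun _ => L) x ∂μ := by
    refine integral_mono_ae hmi (hgi.add hind) ?_
    filter_upwards [hc0 n] with x hx
    show max (g x) 0 ≤ g x + (G n)ᶜ.indicator (fun _ => L) x
    by_cases hxG : x ∈ G n
    · rw [Set.indicator_of_notMem (Set.notMem_compl_iff.2 hxG), add_zero]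
      have h3 : c n x ≤ Real.exp (-((N n : ℝ) * (J x - ε))) := hxG
      have h4 : Real.log (c n x) ≤ -((N n : ℝ) * (J x - ε)) := by
        rw [Real.log_le_iff_le_exp hx]
        exact h3
      have h5 : J x - ε ≤ f n x := by
        show J x - ε ≤ (-Real.log (c n x)) / (N n : ℝ)
        rw [le_div_iff₀ (hNpos n)]
        linarith
      have h6 : 0 ≤ g x := by
        show 0 ≤ f n x - J x + ε
        linarith
      rw [max_eq_left h6]
    · rw [Set.indicator_of_mem (show x ∈ (G n)ᶜ from hxG)]
      have h3 := hf0 n x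
      have h4 := (hJL x).2
      refine max_le (by linarith) ?_
      show 0 ≤ f n x - J x + ε + L
      linarith
  rw [integral_add hgi hind, integral_indicator (hGm n).compl, setIntegral_const, smul_eq_mul, hgint] at hb
  have hb2 : ∫ x, max (g x) 0 ∂μ ≤ 5 / 2 * ε := by
    have : μ.real (G n)ᶜ * L = L * μ.real (G n)ᶜ := mul_comm _ _
    linarith
  have hmark := mul_meas_ge_le_integral_of_nonneg (μ := μ) (f := fun x => max (g x) 0)
    (Eventually.of_forall fun x => le_max_right _ _) hmi (κ + ε)
  have hset : μ {x | LL.cyl μ T P (2 * n + 1) (S^[n] x) < Real.exp (-(((2 * n + 1 : ℕ) : ℝ) * (J x + κ)))} ≤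
      μ {x | κ + ε ≤ max (g x) 0} := by
    refine measure_mono_ae ?_
    filter_upwards [hc0 n] with x hx hlt
    have h3 : c n x < Real.exp (-((N n : ℝ) * (J x + κ))) := hlt
    have h4 : Real.log (c n x) < -((N n : ℝ) * (J x + κ)) := by
      rw [Real.log_lt_iff_lt_exp hx]
      exact h3
    have h5 : J x + κ ≤ f n x := by
      show J x + κ ≤ (-Real.log (c n x)) / (N n : ℝ)
      rw [le_div_iff₀ (hNpos n)]
      linarith
    show κ + ε ≤ max (g x) 0
    refine le_trans ?_ (le_max_left _ _)
    show κ + ε ≤ f n x - J x + ε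
    linarith
  refine hset.trans ?_
  rw [← ofReal_measureReal]
  refine ENNReal.ofReal_le_ofReal ?_
  rw [le_div_iff₀ hκ]
  have h3 : (0 : ℝ) ≤ μ.real {x | κ + ε ≤ max (g x) 0} := measureReal_nonneg
  have h4 : μ.real {x | κ + ε ≤ max (g x) 0} * κ ≤ (κ + ε) * μ.real {x | κ + ε ≤ max (g x) 0} := by
    nlinarith
  linarith

end Pool.Agent.MS
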