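import Pool.Agent.helper57.MS.Spec2

/-!
# ms RDC: the down-set of a family is an intersection of down-sets of families of bipartitions
-/

set_option autoImplicit false

open Finset

namespace Pool.Agent.helper57.MS

open Pool.Agent.RRank Pool.Agent.helper26.IM

theorem RDC (hBPE : BPE_stmt) : RDC_stmt := by
  intro d hd R P
  constructor
  · rintro ⟨P', hP', hle⟩ f hf
    obtain ⟨⟨B, hB⟩, hB2⟩ := hBPE d hd (f P')
    refine ⟨B, ⟨P', hP', hB⟩, (hB2 P B hB).2 ?_⟩
    intro L hL
    obtain ⟨L', hL', hLL⟩ := hle hL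
    by_cases he : L' = f P'
    · left; rw [← he]; exact hLL
    · right
      have hdis : Disjoint L' (f P') := P'.disjoint hL' (hf P' hP') he
      intro x hx
      rw [Finset.mem_compl]
      intro hx'
      exact (Finset.disjoint_left.1 hdis) (hLL hx) hx'
  · intro h
    by_contra hno
    have hch : ∀ P' : IndexPartition d, P' ∈ R → ∃ M : Finset (Fin d), M ∈ P'.parts ∧
        ∃ L ∈ P.parts, ¬ L ⊆ M ∧ ¬ L ⊆ Mᶜ := by
      intro P' hP'
      have hnle : ¬ P ≤ P' := fun hle => hno ⟨P', hP', hle⟩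
      have : ∃ L ∈ P.parts, ∀ M ∈ P'.parts, ¬ L ≤ M := by
        by_contra hcon
        apply hnle
        intro L hL
        by_contra hc2
        apply hcon
        refine ⟨L, hL, ?_⟩
        intro M hM hLM
        exact hc2 ⟨M, hM, hLM⟩
      obtain ⟨L, hL, hLM⟩ := this
      obtain ⟨x, hx⟩ := P.nonempty_of_mem_parts hL
      obtain ⟨M, hM, hxM⟩ := P'.exists_mem (Finset.mem_univ x)
      refine ⟨M, hM, L, hL, hLM M hM, ?_⟩
      intro hc
      have := hc hx
      rw [Finset.mem_compl] at this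
      exact this hxM
    choose! f hf using hch
    obtain ⟨P'', ⟨P', hP', hB⟩, hle⟩ := h f (fun P' hP' => (hf P' hP').1)
    obtain ⟨L, hL, h1, h2⟩ := (hf P' hP').2
    rcases ((hBPE d hd (f P')).2 P P'' hB).1 hle L hL with h3 | h3
    · exact h1 h3
    · exact h2 h3

end Pool.Agent.helper57.MS
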