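import Pool.Agent.helper62.MS.SpecG

/-!
# Row ms:DYA of project MS (MP_07c750_an): dyadic decomposition
-/

set_option autoImplicit false

open MeasureTheory Filter Set

namespace Pool.Agent.MS

theorem DYA_pt (t lam : ℝ) (ht : 0 ≤ t) (hlam : 0 < lam) : ENNReal.ofReal (1 / (1 + lam * t) ^ 2) ≤
    ∑' j : ℕ, ENNReal.ofReal (4 * (1 / 4) ^ j) * ({s : ℝ | s ≤ 2 ^ j / lam}.indicator (1 : ℝ → ENNReal) t) := by
  have hex : ∃ j : ℕ, t ≤ 2 ^ j / lam := by
    obtain ⟨j, hj⟩ := pow_unbounded_of_one_lt (lam * t) (one_lt_two (α := ℝ))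
    refine ⟨j, ?_⟩
    rw [le_div_iff₀ hlam, mul_comm]
    exact hj.le
  classical
  let j := Nat.find hex
  have hj : t ≤ 2 ^ j / lam := Nat.find_spec hex
  have hlt : 0 ≤ lam * t := mul_nonneg hlam.le ht
  have h1 : 1 / (1 + lam * t) ^ 2 ≤ 4 * (1 / 4 : ℝ) ^ j := by
    by_cases h0 : j = 0
    · rw [h0, pow_zero, mul_one]
      have : (1 : ℝ) ≤ (1 + lam * t) ^ 2 := by nlinarith
      calc 1 / (1 + lam * t) ^ 2 ≤ 1 := by
            rw [div_le_one (by positivity)]
            exact this
        _ ≤ 4 := by norm_num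
    · obtain ⟨k, hk⟩ := Nat.exists_eq_succ_of_ne_zero h0
      have hmin : ¬ t ≤ 2 ^ k / lam := Nat.find_min hex (by
        show k < j
        omega)
      rw [not_le, div_lt_iff₀ hlam, mul_comm] at hmin
      rw [hk, pow_succ]
      have h2 : (2 : ℝ) ^ k ≤ 1 + lam * t := by linarith
      have h3 : (4 : ℝ) ^ k ≤ (1 + lam * t) ^ 2 := by
        calc (4 : ℝ) ^ k = (2 ^ k) ^ 2 := by
              rw [← pow_mul, mul_comm k 2, pow_mul]
              norm_num
          _ ≤ (1 + lam * t) ^ 2 := by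
              apply pow_le_pow_left₀ (by positivity) h2
      calc 1 / (1 + lam * t) ^ 2 ≤ 1 / 4 ^ k := one_div_le_one_div_of_le (by positivity) h3
        _ = 4 * ((1 / 4) ^ k * (1 / 4)) := by
            rw [one_div_pow]
            ring
  calc ENNReal.ofReal (1 / (1 + lam * t) ^ 2) ≤ ENNReal.ofReal (4 * (1 / 4) ^ j) := ENNReal.ofReal_le_ofReal h1
    _ = ENNReal.ofReal (4 * (1 / 4) ^ j) * ({s : ℝ | s ≤ 2 ^ j / lam}.indicator (1 : ℝ → ENNReal) t) := by
        rw [Set.indicator_of_mem (show t ∈ {s : ℝ | s ≤ 2 ^ j / lam} from hj), Pi.one_apply, mul_one]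
    _ ≤ ∑' j : ℕ, ENNReal.ofReal (4 * (1 / 4) ^ j) * ({s : ℝ | s ≤ 2 ^ j / lam}.indicator (1 : ℝ → ENNReal) t) :=
        ENNReal.le_tsum (f := fun j : ℕ => ENNReal.ofReal (4 * (1 / 4) ^ j) * ({s : ℝ | s ≤ 2 ^ j / lam}.indicator (1 : ℝ → ENNReal) t)) j

theorem DYA_proof : DYA_stmt := by
  intro Y _ μ t S A B lam htm ht0 hS hA hB hlam hμ
  have hmeas : ∀ j : ℕ, MeasurableSet {s : ℝ | s ≤ 2 ^ j / lam} := fun j => measurableSet_Iic
  calc ∫⁻ x in S, ENNReal.ofReal (1 / (1 + lam * t x) ^ 2) ∂μ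
      ≤ ∫⁻ x in S, ∑' j : ℕ, ENNReal.ofReal (4 * (1 / 4) ^ j) * ({s : ℝ | s ≤ 2 ^ j / lam}.indicator (1 : ℝ → ENNReal) (t x)) ∂μ :=
        lintegral_mono fun x => DYA_pt (t x) lam (ht0 x) hlam
    _ = ∑' j : ℕ, ∫⁻ x in S, ENNReal.ofReal (4 * (1 / 4) ^ j) * ({s : ℝ | s ≤ 2 ^ j / lam}.indicator (1 : ℝ → ENNReal) (t x)) ∂μ := by
        rw [lintegral_tsum]
        intro j
        exact ((Measurable.indicator measurable_one (hmeas j)).comp htm).const_mul _ |>.aemeasurable
    _ ≤ ∑' j : ℕ, ENNReal.ofReal (4 * (1 / 4) ^ j * (A + B * (2 ^ j / lam))) := by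
        refine ENNReal.tsum_le_tsum fun j => ?_
        have hm : Measurable fun x => ({s : ℝ | s ≤ 2 ^ j / lam}.indicator (1 : ℝ → ENNReal) (t x)) :=
          (Measurable.indicator measurable_one (hmeas j)).comp htm
        have hp : (0 : ℝ) ≤ 4 * (1 / 4) ^ j := by positivity
        rw [lintegral_const_mul _ hm, ENNReal.ofReal_mul hp]
        refine mul_le_mul' le_rfl ?_
        have h1 : ∫⁻ x in S, ({s : ℝ | s ≤ 2 ^ j / lam}.indicator (1 : ℝ → ENNReal) (t x)) ∂μ =
            μ (S ∩ {x | t x ≤ 2 ^ j / lam}) := by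
          have h2 : (fun x => ({s : ℝ | s ≤ 2 ^ j / lam}.indicator (1 : ℝ → ENNReal) (t x))) =
              ({x | t x ≤ 2 ^ j / lam}.indicator (1 : Y → ENNReal)) := by
            funext x
            by_cases hx : t x ≤ 2 ^ j / lam
            · rw [Set.indicator_of_mem (show t x ∈ {s : ℝ | s ≤ 2 ^ j / lam} from hx),
                Set.indicator_of_mem (show x ∈ {x | t x ≤ 2 ^ j / lam} from hx)]
              rfl
            · rw [Set.indicator_of_notMem (show t x ∉ {s : ℝ | s ≤ 2 ^ j / lam} from hx),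
                Set.indicator_of_notMem (show x ∉ {x | t x ≤ 2 ^ j / lam} from hx)]
          have hms : MeasurableSet {x | t x ≤ 2 ^ j / lam} := htm measurableSet_Iic
          rw [h2]
          have h3 := lintegral_indicator_one (μ := μ.restrict S) hms
          rw [Measure.restrict_apply hms, Set.inter_comm] at h3
          exact h3
        rw [h1]
        exact hμ _ (by positivity)
    _ = ENNReal.ofReal (∑' j : ℕ, 4 * (1 / 4) ^ j * (A + B * (2 ^ j / lam))) := by
        rw [ENNReal.ofReal_tsum_of_nonneg]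
        · intro j
          positivity
        · have e : (fun j : ℕ => 4 * (1 / 4 : ℝ) ^ j * (A + B * (2 ^ j / lam))) =
              fun j : ℕ => (4 * A) * (1 / 4 : ℝ) ^ j + (4 * B / lam) * (1 / 2 : ℝ) ^ j := by
            funext j
            have : (1 / 4 : ℝ) ^ j * 2 ^ j = (1 / 2) ^ j := by
              rw [← mul_pow]
              norm_num
            rw [← this]
            ring
          rw [e]
          exact ((summable_geometric_of_lt_one (by norm_num) (by norm_num)).mul_left _).add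
            ((summable_geometric_of_lt_one (by norm_num) (by norm_num)).mul_left _)
    _ ≤ ENNReal.ofReal (16 * (A + B / lam)) := by
        apply ENNReal.ofReal_le_ofReal
        have e : (fun j : ℕ => 4 * (1 / 4 : ℝ) ^ j * (A + B * (2 ^ j / lam))) =
            fun j : ℕ => (4 * A) * (1 / 4 : ℝ) ^ j + (4 * B / lam) * (1 / 2 : ℝ) ^ j := by
          funext j
          have : (1 / 4 : ℝ) ^ j * 2 ^ j = (1 / 2) ^ j := by
            rw [← mul_pow]
            norm_num
          rw [← this]
          ring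
        rw [e, Summable.tsum_add ((summable_geometric_of_lt_one (by norm_num) (by norm_num)).mul_left _)
          ((summable_geometric_of_lt_one (by norm_num) (by norm_num)).mul_left _), tsum_mul_left, tsum_mul_left,
          tsum_geometric_of_lt_one (by norm_num) (by norm_num), tsum_geometric_of_lt_one (by norm_num) (by norm_num)]
        have h5 : 0 ≤ B / lam := by positivity
        have h6 : 4 * B / lam = 4 * (B / lam) := by ring
        rw [h6]
        norm_num
        linarith

end Pool.Agent.MS
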