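import Pool.Agent.helper75.MS.Defs

/-!
# MS project (MP_c072aa_co), module M9f: subfields
-/

set_option autoImplicit false

namespace Pool.Agent.helper75.MS

open Finset

/-- M9f: the subfield exists -/
theorem exists_subfield {p m : ℕ} [Fact p.Prime] {F : Type} [Field F] [Fintype F] [DecidableEq F]
    [Algebra (ZMod p) F] (hm : 0 < m) (hF : Fintype.card F = p ^ (2 * m)) :
    ∃ (E : Type) (_ : Field E) (_ : Fintype E) (_ : DecidableEq E) (_ : Algebra (ZMod p) E)
      (_ : Algebra E F) (_ : IsScalarTower (ZMod p) E F), Fintype.card E = p ^ m := by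
  have hp : 1 < p := (Fact.out : p.Prime).one_lt
  have h1 : Module.finrank (ZMod p) (GaloisField p m) = m := GaloisField.finrank p hm.ne'
  have h2 : Module.finrank (ZMod p) F = 2 * m := by
    have h3 := FiniteField.pow_finrank_eq_card (k := F) p
    rw [hF] at h3
    exact Nat.pow_right_injective hp h3
  obtain ⟨f⟩ := FiniteField.nonempty_algHom_of_finrank_dvd (F := ZMod p) (K := GaloisField p m)
    (L := F) (by rw [h1, h2]; exact Dvd.intro_left 2 rfl)
  let _ : Fintype (GaloisField p m) := Fintype.ofFinite _
  let _ : Algebra (GaloisField p m) F := f.toAlgebra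
  refine ⟨GaloisField p m, inferInstance, inferInstance, Classical.decEq _, inferInstance,
    inferInstance, IsScalarTower.of_algebraMap_eq fun x => (f.commutes x).symm, ?_⟩
  rw [← Nat.card_eq_fintype_card, GaloisField.card p m hm.ne']

end Pool.Agent.helper75.MS
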