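import Pool.Agent.helper58.MS.M1b
import Pool.Agent.helper36.MS.M1a
import Pool.Agent.helper29.MS.M9f

/-!
# MS project (MP_c072aa_co), module M9b
-/

set_option autoImplicit false

namespace Pool.Agent.helper75.MS

open Finset

theorem w_mul_pow {p : ℕ} [Fact p.Prime] {K : Type} [Field K] [Fintype K] [DecidableEq K]
    [Algebra (ZMod p) K] (d j : ℕ) (a : K) : w p (d * p ^ j) a = w p d a := by
  have h : ∀ x : K, T p (d * p ^ j) a x = T p d a x := by
    intro x
    unfold T
    rw [map_sub, map_sub, pow_mul, M1b_trace_pow]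
  unfold w cnt
  simp only [h]

/-- substitution by an element fixed by the power map -/
lemma M9b_subst {p d : ℕ} [Fact p.Prime] {K : Type} [Field K] [Fintype K] [DecidableEq K]
    [Algebra (ZMod p) K] {L : Type} [Field L] [CharZero L] (ψ : AddChar (ZMod p) L) (a z : K)
    (hz : z ≠ 0) (hzd : z ^ d = z) :
    ∑ x : K, psiK ψ (z * (a * x - x ^ d)) = W p ψ d a := by
  rw [W_eq]
  refine Fintype.sum_equiv (Equiv.mulLeft₀ z hz) _ _ fun x => ?_
  change psiK ψ (z * (a * x - x ^ d)) = psiK ψ (a * (z * x) - (z * x) ^ d)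
  congr 1
  rw [mul_pow, hzd]
  ring

/-- `d ≡ 1` modulo `√q - 1` : `w ≥ -√q`. -/
theorem w_lower {p d m : ℕ} [Fact p.Prime] {K : Type} [Field K] [Fintype K] [DecidableEq K]
    [Algebra (ZMod p) K] (hp : 3 < p) (hm : 0 < m) (hq : Fintype.card K = p ^ (2 * m))
    (hd : Nat.Coprime d (p ^ (2 * m) - 1)) (hdeg : d ≡ 1 [MOD p ^ m - 1]) (a : K) :
    -(p : ℤ) ^ m ≤ w p d a := by
  classical
  obtain ⟨E, _, _, _, _, _, _, hE⟩ := exists_subfield (F := K) hm hq
  have hd1 : d ≡ 1 [MOD p - 1] := hdeg.of_dvd (by simpa using Nat.sub_dvd_pow_sub_pow p 1 m)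
  have hpm : 1 < p ^ m := Nat.one_lt_pow hm.ne' (by omega)
  set ψ := ZMod.stdAddChar (N := p) with hψ
  have hψ1 : ψ ≠ 1 := M1b_std_ne
  set χ : K → AddChar E ℂ := fun t =>
    (psiK ψ).compAddMonoidHom ((AddMonoidHom.mulRight t).comp (algebraMap E K).toAddMonoidHom)
    with hχ
  have hχa : ∀ t z, χ t z = psiK ψ (algebraMap E K z * t) := fun t z => rfl
  have hEd : ∀ z : E, z ≠ 0 → z ^ d = z := by
    intro z hz
    have h1 : z ^ (p ^ m - 1) = 1 := by
      rw [← hE]; exact FiniteField.pow_card_sub_one_eq_one z hz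
    rw [pow_eq_pow_of_modEq hdeg h1, pow_one]
  have h1 : ∑ z : E, ∑ x : K, psiK ψ (algebraMap E K z * (a * x - x ^ d)) =
      (p : ℂ) ^ (2 * m) + ((p : ℂ) ^ m - 1) * w p d a := by
    rw [← Finset.add_sum_erase _ _ (Finset.mem_univ (0 : E))]
    congr 1
    · simp [hq]
    · rw [Finset.sum_congr rfl (g := fun _ => (w p d a : ℂ))]
      · rw [Finset.sum_const, Finset.card_erase_of_mem (Finset.mem_univ _), Finset.card_univ, hE,
          nsmul_eq_mul, Nat.cast_sub hpm.le]
        push_cast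
        ring
      · intro z hz
        have hz0 := Finset.ne_of_mem_erase hz
        rw [M9b_subst ψ a (algebraMap E K z) (by rwa [Ne, map_eq_zero])
          (by rw [← map_pow, hEd z hz0]), W_eq_w hψ1 hp hd1]
  have h2 : ∑ z : E, ∑ x : K, psiK ψ (algebraMap E K z * (a * x - x ^ d)) =
      (p : ℂ) ^ m * (univ.filter fun x : K => χ (a * x - x ^ d) = 0).card := by
    rw [Finset.sum_comm]
    have h3 : ∀ x : K, ∑ z : E, psiK ψ (algebraMap E K z * (a * x - x ^ d)) =
        if χ (a * x - x ^ d) = 0 then (p : ℂ) ^ m else 0 := by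
      intro x
      have := AddChar.sum_eq_ite (χ (a * x - x ^ d))
      simp only [hχa] at this
      rw [this]
      split_ifs
      · rw [hE]; push_cast; rfl
      · rfl
    simp only [h3]
    rw [Finset.sum_ite, Finset.sum_const, Finset.sum_const_zero, add_zero, nsmul_eq_mul, mul_comm]
  set N := (univ.filter fun x : K => χ (a * x - x ^ d) = 0).card with hN
  have hN1 : 1 ≤ N := by
    rw [hN, Nat.one_le_iff_ne_zero, Finset.card_ne_zero]
    refine ⟨0, ?_⟩
    rw [Finset.mem_filter]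
    refine ⟨Finset.mem_univ _, ?_⟩
    ext z
    rw [hχa, zero_pow (M1b_d_ne hp hd1)]
    simp
  rw [h1] at h2
  have h4 : (p : ℤ) ^ (2 * m) + ((p : ℤ) ^ m - 1) * w p d a = (p : ℤ) ^ m * N := by
    exact_mod_cast h2
  have hpz : (1 : ℤ) < (p : ℤ) ^ m := by exact_mod_cast hpm
  have hNz : (1 : ℤ) ≤ N := by exact_mod_cast hN1
  have h5 : 0 ≤ ((p : ℤ) ^ m - 1) * (w p d a + (p : ℤ) ^ m) := by
    have e : (p : ℤ) ^ (2 * m) = (p : ℤ) ^ m * (p : ℤ) ^ m := by rw [two_mul, pow_add]
    have : ((p : ℤ) ^ m - 1) * (w p d a + (p : ℤ) ^ m) = (p : ℤ) ^ m * (N - 1) := by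
      rw [e] at h4
      linear_combination h4
    rw [this]
    exact mul_nonneg (by positivity) (by linarith)
  have h6 := nonneg_of_mul_nonneg_right h5 (by linarith)
  linarith

end Pool.Agent.helper75.MS
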