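import Pool.Agent.helper58.MS.M1b
import Pool.Agent.helper36.MS.M1a

/-!
# MS project (MP_c072aa_co), module M9d: quadratic extensions
-/

set_option autoImplicit false

namespace Pool.Agent.helper75.MS

open Finset

section
variable {p d m : ℕ} [Fact p.Prime] {E F : Type} [Field E] [Fintype E] [DecidableEq E]
    [Algebra (ZMod p) E] [Field F] [Fintype F] [DecidableEq F] [Algebra (ZMod p) F] [Algebra E F]
    [IsScalarTower (ZMod p) E F]

omit [DecidableEq E] [DecidableEq F] in
lemma M9d_tr (hm : 0 < m) (hE : Fintype.card E = p ^ m) (hF : Fintype.card F = p ^ (2 * m)) (z : E) :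
    Algebra.trace (ZMod p) F (algebraMap E F z) = 2 * Algebra.trace (ZMod p) E z := by
  have hpm : 1 < p ^ m := Nat.one_lt_pow hm.ne' (Fact.out : p.Prime).one_lt
  have h1 : Module.finrank E F = 2 := by
    have h := Module.card_eq_pow_finrank (K := E) (V := F)
    rw [hE, hF, mul_comm 2 m, pow_mul] at h
    exact (Nat.pow_right_injective hpm h).symm
  rw [← Algebra.trace_trace (R := ZMod p) (S := E) (T := F), Algebra.trace_algebraMap, h1, map_nsmul]
  simp

omit [IsScalarTower (ZMod p) E F] [Algebra (ZMod p) E] [Algebra (ZMod p) F] [DecidableEq E] in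
lemma M9d_fix (hm : 0 < m) (hE : Fintype.card E = p ^ m) (y : F) :
    y ^ p ^ m = y ↔ ∃ z : E, algebraMap E F z = y := by
  have hpm : 1 < p ^ m := Nat.one_lt_pow hm.ne' (Fact.out : p.Prime).one_lt
  have hfix : ∀ z : E, (algebraMap E F z) ^ p ^ m = algebraMap E F z := by
    intro z
    rw [← map_pow, ← hE, FiniteField.pow_card]
  have h1 : (univ.image (algebraMap E F)) = univ.filter fun y : F => y ^ p ^ m = y := by
    refine Finset.eq_of_subset_of_card_le ?_ ?_
    · intro y hy
      rw [mem_image] at hy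
      obtain ⟨z, _, rfl⟩ := hy
      exact mem_filter.2 ⟨mem_univ _, hfix z⟩
    · rw [Finset.card_image_of_injective _ (algebraMap E F).injective, Finset.card_univ, hE]
      have hdeg : (Polynomial.X ^ p ^ m - Polynomial.X : Polynomial F).natDegree = p ^ m :=
        FiniteField.X_pow_card_sub_X_natDegree_eq F hpm
      have h2 := Polynomial.card_le_degree_of_subset_roots
        (p := (Polynomial.X ^ p ^ m - Polynomial.X : Polynomial F))
        (Z := univ.filter fun y : F => y ^ p ^ m = y) ?_
      · rwa [hdeg] at h2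
      · intro y hy
        rw [Finset.mem_val, mem_filter] at hy
        rw [Polynomial.mem_roots (FiniteField.X_pow_card_sub_X_ne_zero F hpm)]
        simp [Polynomial.IsRoot, hy.2]
  constructor
  · intro hy
    have : y ∈ univ.image (algebraMap E F) := by rw [h1]; exact mem_filter.2 ⟨mem_univ _, hy⟩
    rw [mem_image] at this
    obtain ⟨z, _, hz⟩ := this
    exact ⟨z, hz⟩
  · rintro ⟨z, rfl⟩
    exact hfix z

omit [DecidableEq F] [Algebra (ZMod p) F] [Fact p.Prime] in
lemma M9d_invol (hF : Fintype.card F = p ^ (2 * m)) (y : F) : (y ^ p ^ m) ^ p ^ m = y := by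
  rw [← pow_mul, ← pow_add, ← two_mul, ← hF, FiniteField.pow_card]

omit [Fintype E] [DecidableEq E] [Fintype F] [DecidableEq F] [Algebra (ZMod p) F] [Algebra E F]
  [IsScalarTower (ZMod p) E F] [Field F] in
lemma M9d_two (hp : 3 < p) (hd1 : d ≡ 1 [MOD p - 1]) : (2 : E) ≠ 0 ∧ (2 : E) ^ d = 2 := by
  have h2 : (2 : ZMod p) ≠ 0 := by
    intro h
    have h3 : ((2 : ℕ) : ZMod p) = 0 := by exact_mod_cast h
    rw [ZMod.natCast_eq_zero_iff] at h3
    have := Nat.le_of_dvd (by norm_num) h3
    omega
  constructor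
  · intro h
    apply h2
    rw [← map_eq_zero (algebraMap (ZMod p) E), map_ofNat]
    exact h
  · have h3 := congrArg (algebraMap (ZMod p) E) (M1b_pow hp hd1 (2 : ZMod p))
    rwa [map_pow, map_ofNat] at h3

/-- the counts of `E` and `F` have the same parity -/
lemma M9d_cnt (hp : 3 < p) (hm : 0 < m) (hE : Fintype.card E = p ^ m)
    (hF : Fintype.card F = p ^ (2 * m)) (hd1 : d ≡ 1 [MOD p - 1]) (x : E) (c : ZMod p) :
    (cnt p d (algebraMap E F x) c : ZMod 2) = (cnt p d x c : ZMod 2) := by
  classical
  have hch : CharP F p := charP_of_injective_algebraMap (algebraMap (ZMod p) F).injective p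
  have hT : ∀ y : F, T p d (algebraMap E F x) (y ^ p ^ m) = T p d (algebraMap E F x) y := by
    intro y
    unfold T
    have hx : (algebraMap E F x) ^ p ^ m = algebraMap E F x := (M9d_fix hm hE _).2 ⟨x, rfl⟩
    rw [← M1b_trace_pow (algebraMap E F x * y - y ^ d) m, sub_pow_char_pow, mul_pow, hx]
    congr 2
    rw [← pow_mul, ← pow_mul, mul_comm]
  obtain ⟨h20, h2d⟩ := M9d_two (E := E) hp hd1
  -- the fixed points
  have hTE : ∀ z : E, T p d (algebraMap E F x) (algebraMap E F (z / 2)) = T p d x z := by
    intro z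
    unfold T
    rw [← map_mul, ← map_pow, ← map_sub, M9d_tr hm hE hF]
    have h1 : (2 : ZMod p) * Algebra.trace (ZMod p) E (x * (z / 2) - (z / 2) ^ d) =
        Algebra.trace (ZMod p) E ((2 : ZMod p) • (x * (z / 2) - (z / 2) ^ d)) := by
      rw [map_smul, smul_eq_mul]
    rw [h1]
    congr 1
    rw [Algebra.smul_def, map_ofNat, div_pow, h2d]
    field_simp
  have hfixed : ((univ.filter fun y : F => T p d (algebraMap E F x) y = c).filter
      fun y => y ^ p ^ m = y).card = (univ.filter fun z : E => T p d x z = c).card := by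
    symm
    refine Finset.card_bij (fun z _ => algebraMap E F (z / 2)) ?_ ?_ ?_
    · intro z hz
      rw [mem_filter] at hz
      rw [mem_filter, mem_filter]
      exact ⟨⟨mem_univ _, by rw [hTE, hz.2]⟩, (M9d_fix hm hE _).2 ⟨_, rfl⟩⟩
    · intro z _ z' _ h
      have h1 := (algebraMap E F).injective h
      exact (div_left_inj' h20).1 h1
    · intro y hy
      rw [mem_filter, mem_filter] at hy
      obtain ⟨z, hz⟩ := (M9d_fix hm hE y).1 hy.2
      refine ⟨2 * z, ?_, ?_⟩
      · rw [mem_filter]
        refine ⟨mem_univ _, ?_⟩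
        rw [← hTE, mul_div_cancel_left₀ _ h20, hz]
        exact hy.1.2
      · rw [mul_div_cancel_left₀ _ h20, hz]
  have hnonfixed : (((univ.filter fun y : F => T p d (algebraMap E F x) y = c).filter
      fun y => ¬ y ^ p ^ m = y).card : ZMod 2) = 0 := by
    rw [Finset.card_eq_sum_ones, Nat.cast_sum]
    refine Finset.sum_involution (fun y _ => y ^ p ^ m) (fun y hy => ?_) (fun y hy _ => ?_)
      (fun y hy => ?_) (fun y hy => ?_)
    · decide
    · exact (mem_filter.1 hy).2
    · rw [mem_filter, mem_filter] at hy ⊢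
      refine ⟨⟨mem_univ _, by rw [hT]; exact hy.1.2⟩, ?_⟩
      rw [M9d_invol hF]
      exact fun h => hy.2 h.symm
    · exact M9d_invol hF y
  unfold cnt
  rw [← Finset.card_filter_add_card_filter_not (s := univ.filter fun y : F =>
    T p d (algebraMap E F x) y = c) (fun y => y ^ p ^ m = y), Nat.cast_add, hnonfixed, add_zero,
    hfixed]

theorem sub_parity (hp : 3 < p) (hm : 0 < m) (hE : Fintype.card E = p ^ m)
    (hF : Fintype.card F = p ^ (2 * m)) (hd : Nat.Coprime d (p ^ (2 * m) - 1))
    (hd1 : d ≡ 1 [MOD p - 1]) (x : E) :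
    Odd (w p d (algebraMap E F x)) ↔ Odd (w p d x) := by
  have h : ((w p d (algebraMap E F x) : ℤ) : ZMod 2) = ((w p d x : ℤ) : ZMod 2) := by
    unfold w
    push_cast
    rw [M9d_cnt hp hm hE hF hd1, M9d_cnt hp hm hE hF hd1]
  rw [← ZMod.intCast_eq_one_iff_odd, ← ZMod.intCast_eq_one_iff_odd, h]

theorem sub_sum (hp : 3 < p) (hm : 0 < m) (hE : Fintype.card E = p ^ m)
    (hF : Fintype.card F = p ^ (2 * m)) (hd : Nat.Coprime d (p ^ (2 * m) - 1))
    (hd1 : d ≡ 1 [MOD p - 1]) :
    ∑ x : E, w p d (algebraMap E F x) = (p : ℤ) ^ (2 * m) := by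
  classical
  have hch : CharP F p := charP_of_injective_algebraMap (algebraMap (ZMod p) F).injective p
  set ψ := ZMod.stdAddChar (N := p) with hψ
  have hψ1 : ψ ≠ 1 := M1b_std_ne
  have hp0 : (p : ℂ) ^ m ≠ 0 := pow_ne_zero _ (by
    have : p ≠ 0 := by omega
    exact_mod_cast this)
  set χ : F → AddChar E ℂ := fun t =>
    (psiK ψ).compAddMonoidHom ((AddMonoidHom.mulRight t).comp (algebraMap E F).toAddMonoidHom)
    with hχ
  have hχa : ∀ t z, χ t z = psiK ψ (algebraMap E F z * t) := fun t z => rfl
  have hsum : ∀ y : F, ∑ z : E, psiK ψ (algebraMap E F z * y) =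
      if χ y = 0 then (p : ℂ) ^ m else 0 := by
    intro y
    have := AddChar.sum_eq_ite (χ y)
    simp only [hχa] at this
    rw [this]
    split_ifs
    · rw [hE]; push_cast; rfl
    · rfl
  -- the number of trivial characters
  have hN : ((univ.filter fun y : F => χ y = 0).card : ℂ) = (p : ℂ) ^ m := by
    have h1 : ∑ y : F, ∑ z : E, psiK ψ (algebraMap E F z * y) =
        (p : ℂ) ^ m * (univ.filter fun y : F => χ y = 0).card := by
      simp only [hsum]
      rw [Finset.sum_ite, Finset.sum_const, Finset.sum_const_zero, add_zero, nsmul_eq_mul, mul_comm]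
    have h2 : ∑ y : F, ∑ z : E, psiK ψ (algebraMap E F z * y) = (p : ℂ) ^ (2 * m) := by
      rw [Finset.sum_comm]
      have h3 : ∀ z : E, ∑ y : F, psiK ψ (algebraMap E F z * y) =
          if z = 0 then (p : ℂ) ^ (2 * m) else 0 := by
        intro z
        have h4 := sum_psiK (K := F) hψ1 hF (algebraMap E F z)
        simp only [map_eq_zero] at h4
        rw [← h4]
        exact Finset.sum_congr rfl fun y _ => by rw [mul_comm]
      simp only [h3]
      rw [Finset.sum_ite_eq' univ (0 : E)]
      simp
    rw [h2, two_mul, pow_add] at h1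
    exact (mul_left_cancel₀ hp0 h1).symm
  -- the trivial characters
  have htriv : ∀ y : F, χ y = 0 → psiK ψ (-(y ^ d)) = 1 := by
    intro y hy
    have hy1 : ∀ z : E, psiK ψ (algebraMap E F z * y) = 1 := fun z => by
      rw [← hχa, hy]; rfl
    -- the trace of y to E vanishes
    obtain ⟨s, hs⟩ := (M9d_fix hm hE (y + y ^ p ^ m)).1 (by
      rw [add_pow_char_pow, M9d_invol hF, add_comm])
    have hs1 : ∀ z : E, psiK ψ (z * (2 * s)) = 1 := by
      intro z
      rw [psiK_apply]
      have e1 : Algebra.trace (ZMod p) E (z * (2 * s)) =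
          Algebra.trace (ZMod p) F (algebraMap E F z * y) +
            Algebra.trace (ZMod p) F (algebraMap E F z * y ^ p ^ m) := by
        rw [← map_add, ← mul_add, ← hs, ← map_mul, M9d_tr hm hE hF]
        have h1 : (2 : ZMod p) * Algebra.trace (ZMod p) E (z * s) =
            Algebra.trace (ZMod p) E ((2 : ZMod p) • (z * s)) := by
          rw [map_smul, smul_eq_mul]
        rw [h1, Algebra.smul_def, map_ofNat]
        congr 1
        ring
      have e2 : Algebra.trace (ZMod p) F (algebraMap E F z * y ^ p ^ m) =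
          Algebra.trace (ZMod p) F (algebraMap E F z * y) := by
        rw [← M1b_trace_pow (algebraMap E F z * y) m, mul_pow,
          (M9d_fix hm hE (algebraMap E F z)).2 ⟨z, rfl⟩]
      rw [e1, e2, AddChar.map_add_eq_mul, ← psiK_apply, hy1, one_mul]
    have hs0 : s = 0 := by
      have h1 := sum_psiK (K := E) hψ1 hE (2 * s)
      simp only [hs1] at h1
      by_contra hne
      have h20 := (M9d_two (E := E) hp hd1).1
      rw [if_neg (mul_ne_zero h20 hne), Finset.sum_const, Finset.card_univ, hE, nsmul_eq_mul,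
        mul_one] at h1
      push_cast at h1
      exact hp0 h1
    rw [hs0, map_zero] at hs
    have hσ : y ^ p ^ m = -y := (neg_eq_of_add_eq_zero_right hs.symm).symm
    have hdodd := d_odd (p := p) hp (by omega : 0 < 2 * m) hd
    have htr : Algebra.trace (ZMod p) F (y ^ d) = 0 := by
      have h1 : Algebra.trace (ZMod p) F (y ^ d) = - Algebra.trace (ZMod p) F (y ^ d) := by
        conv_lhs => rw [← M1b_trace_pow (y ^ d) m]
        rw [← pow_mul, mul_comm, pow_mul, hσ, hdodd.neg_pow, map_neg]
      have h2 : (2 : ZMod p) * Algebra.trace (ZMod p) F (y ^ d) = 0 := by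
        linear_combination h1
      rcases mul_eq_zero.1 h2 with h3 | h3
      · exfalso
        have h20 := (M9d_two (E := E) hp hd1).1
        apply h20
        rw [← map_ofNat (algebraMap (ZMod p) E), h3, map_zero]
      · exact h3
    rw [psiK_apply, map_neg, htr, neg_zero, AddChar.map_zero_eq_one]
  have key : (∑ x : E, (w p d (algebraMap E F x) : ℂ)) = (p : ℂ) ^ (2 * m) := by
    have h1 : ∀ x : E, (w p d (algebraMap E F x) : ℂ) =
        ∑ y : F, psiK ψ (-(y ^ d)) * psiK ψ (algebraMap E F x * y) := by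
      intro x
      rw [← W_eq_w hψ1 hp hd1, W_eq]
      refine Finset.sum_congr rfl fun y _ => ?_
      rw [← AddChar.map_add_eq_mul]
      congr 1
      ring
    simp only [h1]
    rw [Finset.sum_comm]
    simp only [← Finset.mul_sum, hsum]
    have h2 : ∀ y : F, psiK ψ (-(y ^ d)) * (if χ y = 0 then (p : ℂ) ^ m else 0) =
        if χ y = 0 then (p : ℂ) ^ m else 0 := by
      intro y
      split_ifs with h
      · rw [htriv y h, one_mul]
      · rw [mul_zero]
    simp only [h2]
    rw [Finset.sum_ite, Finset.sum_const, Finset.sum_const_zero, add_zero, nsmul_eq_mul, hN,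
      two_mul, pow_add]
  exact_mod_cast key

end

end Pool.Agent.helper75.MS
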